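import Mathlib
import Pool.Agent.H26R2.Bass.Main

set_option autoImplicit false

/-! Lifting equivalences of idempotent matrices along nilpotent ideals. -/

noncomputable section

namespace TH357OP

set_option linter.unusedSectionVars false

section lift

variable {A B : Type*} [Ring A] [Ring B] (f : A →+* B) {n l : Type*} [Fintype n] [DecidableEq n]
  [Fintype l] [DecidableEq l]

lemma exists_mlift (hf : Function.Surjective f) (x : Matrix n l B) :
    ∃ X : Matrix n l A, X.map f = x := by
  choose g hg using hf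
  exact ⟨x.map g, by ext i j; simp [hg]⟩

lemma idem_zero {C : Type*} [Ring C] (e : C) (he : e * e = e) (hn : IsNilpotent e) : e = 0 := by
  obtain ⟨k, hk⟩ := hn
  have h1 : e ^ (k + 1) = e := IsIdempotentElem.pow_succ_eq k he
  rw [pow_succ, hk, zero_mul] at h1
  exact h1.symm

lemma lift_equiv (hf : Function.Surjective f)
    (hn : ∀ Z : Matrix n n A, Z.map f = 0 → IsNilpotent Z)
    (hl : ∀ Z : Matrix l l A, Z.map f = 0 → IsNilpotent Z)
    (P : Matrix n n A) (hP : P * P = P) (Q : Matrix l l A) (hQ : Q * Q = Q)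
    (x : Matrix n l B) (y : Matrix l n B) (hxy : x * y = P.map f) (hyx : y * x = Q.map f) :
    ∃ (X : Matrix n l A) (Y : Matrix l n A), X * Y = P ∧ Y * X = Q := by
  obtain ⟨X0, hX0⟩ := exists_mlift f hf x
  obtain ⟨Y0, hY0⟩ := exists_mlift f hf y
  have hPf : x * y * (x * y) = x * y := by rw [hxy, ← Matrix.map_mul, hP]
  have hQf : y * x * (y * x) = y * x := by rw [hyx, ← Matrix.map_mul, hQ]
  set X := P * X0 * Q with hX
  set Y := Q * Y0 * P with hY
  have hPX : P * X = X := by rw [hX, ← Matrix.mul_assoc, ← Matrix.mul_assoc, hP]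
  have hXQ : X * Q = X := by rw [hX, Matrix.mul_assoc, hQ]
  have hQY : Q * Y = Y := by rw [hY, ← Matrix.mul_assoc, ← Matrix.mul_assoc, hQ]
  have hYP : Y * P = Y := by rw [hY, Matrix.mul_assoc, hP]
  have hXm : X.map f = x * y * x * (y * x) := by
    rw [hX, Matrix.map_mul, Matrix.map_mul, hX0, ← hxy, ← hyx]
  have hYm : Y.map f = y * x * y * (x * y) := by
    rw [hY, Matrix.map_mul, Matrix.map_mul, hY0, ← hxy, ← hyx]
  have hXm' : X.map f = x * y * x := by
    rw [hXm]
    calc x * y * x * (y * x) = x * y * (x * y) * x := by simp only [Matrix.mul_assoc]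
      _ = x * y * x := by rw [hPf]
  have hYm' : Y.map f = y * x * y := by
    rw [hYm]
    calc y * x * y * (x * y) = y * x * (y * x) * y := by simp only [Matrix.mul_assoc]
      _ = y * x * y := by rw [hQf]
  have hXYm : (X * Y).map f = P.map f := by
    rw [Matrix.map_mul, hXm', hYm', ← hxy]
    calc x * y * x * (y * x * y) = x * y * (x * y) * (x * y) := by simp only [Matrix.mul_assoc]
      _ = x * y := by rw [hPf, hPf]
  have hYXm : (Y * X).map f = Q.map f := by
    rw [Matrix.map_mul, hXm', hYm', ← hyx]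
    calc y * x * y * (x * y * x) = y * x * (y * x) * (y * x) := by simp only [Matrix.mul_assoc]
      _ = y * x := by rw [hQf, hQf]
  set z := X * Y - P with hz
  have hz0 : z.map f = 0 := by
    rw [hz, Matrix.map_sub (hf := map_sub f), hXYm, sub_self]
  have hPz : P * z = z := by rw [hz, mul_sub, ← Matrix.mul_assoc, hPX, hP]
  have hzP : z * P = z := by rw [hz, sub_mul, Matrix.mul_assoc, hYP, hP]
  obtain ⟨u, hu⟩ := (hn z hz0).isUnit_one_add
  set w : Matrix n n A := ((u⁻¹ : (Matrix n n A)ˣ) : Matrix n n A) with hw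
  have hw1 : (1 + z) * w = 1 := by rw [← hu]; exact u.mul_inv
  have hw2 : w * (1 + z) = 1 := by rw [← hu]; exact u.inv_mul
  have hwm : w.map f = 1 := by
    have h1 : (w * (1 + z)).map f = (1 : Matrix n n B) := by
      rw [hw2, Matrix.map_one f (map_zero f) (map_one f)]
    rw [Matrix.map_mul, Matrix.map_add f (map_add f), Matrix.map_one f (map_zero f) (map_one f),
      hz0, add_zero, mul_one] at h1
    exact h1
  have hXY : X * (Y * w) = P := by
    have h1 : X * Y = P * (1 + z) := by
      rw [mul_add, mul_one, hPz, hz]; abel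
    rw [← Matrix.mul_assoc, h1, Matrix.mul_assoc, hw1, Matrix.mul_one]
  refine ⟨X, Y * w, hXY, ?_⟩
  set e := Y * w * X with he
  have hee : e * e = e := by
    calc e * e = Y * w * (X * (Y * w)) * X := by rw [he]; simp only [Matrix.mul_assoc]
      _ = Y * w * (P * X) := by rw [hXY, Matrix.mul_assoc]
      _ = e := by rw [hPX]
  have hQe : Q * e = e := by
    calc Q * e = Q * Y * w * X := by rw [he]; simp only [Matrix.mul_assoc]
      _ = e := by rw [hQY]
  have heQ : e * Q = e := by
    rw [he, Matrix.mul_assoc, hXQ]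
  have hd : (Q - e) * (Q - e) = Q - e := by
    rw [sub_mul, mul_sub, mul_sub, hQ, hQe, heQ, hee]; abel
  have hdm : (Q - e).map f = 0 := by
    rw [Matrix.map_sub (hf := map_sub f), he, Matrix.map_mul, Matrix.map_mul, hwm, Matrix.mul_one,
      ← Matrix.map_mul, hYXm, sub_self]
  have h0 := idem_zero _ hd (hl _ hdm)
  exact (sub_eq_zero.1 h0).symm

end lift

open MonoidAlgebra
open Pool.Agent.H26R2.IdemLI (ch ch_coeff)

lemma coeff_mul_mem {S G : Type*} [CommRing S] [Group G] (I J : Ideal S)
    (x y : MonoidAlgebra S G) (hx : ∀ g, x.coeff g ∈ I) (hy : ∀ g, y.coeff g ∈ J) (g : G) :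
    (x * y).coeff g ∈ I * J := by
  classical
  rw [coeff_mul]
  refine Ideal.sum_mem _ fun a _ => ?_
  dsimp only
  refine Ideal.sum_mem _ fun b _ => ?_
  dsimp only
  split_ifs
  · exact Ideal.mul_mem_mul (hx a) (hy b)
  · exact Ideal.zero_mem _

lemma pow_coeff_mem {S G : Type*} [CommRing S] [Group G] {n : Type*} [Fintype n] [DecidableEq n]
    (I : Ideal S) (Z : Matrix n n (MonoidAlgebra S G)) (hZ : ∀ i j g, (Z i j).coeff g ∈ I)
    (k : ℕ) : ∀ i j g, ((Z ^ k) i j).coeff g ∈ I ^ k := by
  induction k with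
  | zero => intro i j g; rw [pow_zero (M := Ideal S), Ideal.one_eq_top]; exact Submodule.mem_top
  | succ k ih =>
    intro i j g
    have h1 : (Z ^ (k + 1)) i j = ∑ a, (Z ^ k) i a * Z a j := by
      rw [pow_succ, Matrix.mul_apply]
    have h2 : I ^ (k + 1) = I ^ k * I := pow_succ _ _
    rw [h1, h2, coeff_sum, Finsupp.finsetSum_apply]
    exact Ideal.sum_mem _ fun a _ => coeff_mul_mem _ _ _ _ (ih i a) (hZ a j) g

lemma nil_of_map {S T : Type*} [CommRing S] [CommRing T] (θ : S →+* T) (k : ℕ)
    (hk : RingHom.ker θ ^ k = ⊥) {G : Type*} [Group G] {n : Type*} [Fintype n] [DecidableEq n]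
    (Z : Matrix n n (MonoidAlgebra S G)) (hZ : Z.map (ch θ G) = 0) : IsNilpotent Z := by
  refine ⟨k, ?_⟩
  have h1 : ∀ i j g, (Z i j).coeff g ∈ RingHom.ker θ := by
    intro i j g
    rw [RingHom.mem_ker, ← ch_coeff]
    have h2 : Z.map (ch θ G) i j = 0 := by rw [hZ]; rfl
    rw [Matrix.map_apply] at h2
    rw [h2, coeff_zero]
    rfl
  refine Matrix.ext fun i j => ?_
  apply MonoidAlgebra.coeff_injective
  ext g
  have h3 := pow_coeff_mem _ Z h1 k i j g
  rw [hk, Ideal.mem_bot] at h3
  rw [h3]
  rfl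

lemma ch_surj {S T : Type*} [CommRing S] [CommRing T] (θ : S →+* T) (hθ : Function.Surjective θ)
    (G : Type*) [Group G] : Function.Surjective (ch θ G) := by
  classical
  intro x
  choose s hs using hθ
  refine ⟨∑ g ∈ x.coeff.support, single g (s (x.coeff g)), ?_⟩
  rw [map_sum]
  ext g
  rw [coeff_sum, Finsupp.finsetSum_apply]
  have h1 : ∀ y ∈ x.coeff.support, (ch θ G (single y (s (x.coeff y)))).coeff g =
      if y = g then x.coeff y else 0 := by
    intro y _
    rw [ch_coeff, coeff_single, Finsupp.single_apply]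
    split_ifs
    · exact hs _
    · exact map_zero _
  rw [Finset.sum_congr rfl h1, Finset.sum_ite_eq']
  split_ifs with h2
  · rfl
  · exact (Finsupp.notMem_support_iff.1 h2).symm

end TH357OP
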