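import Pool.Agent.TH357.OP.A

set_option autoImplicit false

/-! Idempotent matrices over group rings whose reduction comes from subgroups. -/

noncomputable section

namespace TH357OP

open MonoidAlgebra
open Pool.Agent.H23R2.Cyc (ell ell_single ell_mul_comm ell_eq_sum tf tf_apply tf_eq_zero msupp
  mem_msupp ell_mapDomain)
open Pool.Agent.H26R2.IdemLI (ch ch_coeff)
open Pool.Agent.H26R2.Bass (ind ind_comm tau tau_eq tf_zero_of_finite)

universe u v w

lemma tf_rect {S : Type*} [CommRing S] {G : Type*} [Group G] {d e : Type*} [Fintype d]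
    [DecidableEq d] [Fintype e] [DecidableEq e] (f : G → S) (hf : ∀ x y, f (x * y) = f (y * x))
    (X : Matrix d e (MonoidAlgebra S G)) (Y : Matrix e d (MonoidAlgebra S G)) :
    tf f (X * Y) = tf f (Y * X) := by
  rw [tf_apply, tf_apply]
  simp only [Matrix.mul_apply, map_sum]
  rw [Finset.sum_comm]
  exact Finset.sum_congr rfl fun i _ => Finset.sum_congr rfl fun j _ => ell_mul_comm f hf _ _

lemma tf_block {S : Type*} [CommRing S] {G : Type*} [Group G] {ι κ : Type*} [Fintype ι]
    [DecidableEq ι] [Fintype κ] [DecidableEq κ] (f : G → S)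
    (M : ι → Matrix κ κ (MonoidAlgebra S G)) :
    tf f (Matrix.blockDiagonal M) = ∑ i, tf f (M i) := by
  simp only [tf_apply]
  rw [Fintype.sum_prod_type_right]
  exact Finset.sum_congr rfl fun i _ => Finset.sum_congr rfl fun j _ => by
    rw [Matrix.blockDiagonal_apply_eq]

lemma tf_sub {S : Type*} [CommRing S] {G H : Type*} [Group G] [Group H] {κ : Type*} [Fintype κ]
    [DecidableEq κ] (φ : H →* G) (f : G → S) (M : Matrix κ κ (MonoidAlgebra S H)) :
    tf f (M.map (MonoidAlgebra.mapDomainRingHom S φ)) = tf (fun h => f (φ h)) M := by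
  simp only [tf_apply, Matrix.map_apply, ell_mapDomain]

lemma ell_ch' {A : Type*} {B : Type*} [CommRing A] [CommRing B] {G : Type*} [Group G]
    (θ : A →+* B) (g : G) (x : MonoidAlgebra A G) : ell (ind B g) (ch θ G x) =
      θ (ell (ind A g) x) := Pool.Agent.H26R2.Bass.ell_ch θ g x

lemma tf_ch' {A : Type*} {B : Type*} [CommRing A] [CommRing B] {G : Type*} [Group G]
    {d : Type*} [Fintype d] [DecidableEq d] (θ : A →+* B) (g : G)
    (E : Matrix d d (MonoidAlgebra A G)) :
    tf (ind B g) (E.map (ch θ G)) = θ (tf (ind A g) E) := by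
  rw [tf_apply, tf_apply, map_sum]
  exact Finset.sum_congr rfl (fun i _ => ell_ch' θ g (E i i))

lemma ch_mapDomain {A : Type*} {B : Type*} [CommRing A] [CommRing B] {G H : Type*} [Group G]
    [Group H] (θ : A →+* B) (φ : H →* G) (x : MonoidAlgebra A H) :
    ch θ G (MonoidAlgebra.mapDomainRingHom A φ x) =
      MonoidAlgebra.mapDomainRingHom B φ (ch θ H x) := by
  induction x using MonoidAlgebra.induction_linear with
  | zero => simp
  | add x y hx hy => simp only [map_add, hx, hy]
  | single g r => simp [ch]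

/-- vanishing for class functions with possibly infinitely many classes in the support -/
lemma tf_zero' {S : Type*} [CommRing S] {H : Type*} [Group H] {κ : Type*} [Fintype κ]
    [DecidableEq κ] {p m : ℕ} [hp : Fact p.Prime] (hR : (p : S) ^ m = 0)
    (E : Matrix κ κ (MonoidAlgebra S H)) (hE : E * E = E) (f : H → S)
    (hf : ∀ a b, IsConj a b → f a = f b)
    (hg : ∀ g, f g ≠ 0 → ∀ j, 1 ≤ j → ¬ IsConj g (g ^ p ^ j)) : tf f E = 0 := by
  classical
  let X : Finset H := (msupp E).filter fun g => f g ≠ 0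
  let f' : H → S := fun h => if ∃ g ∈ X, IsConj g h then f h else 0
  have hcomm : ∀ x y : H, IsConj (x * y) (y * x) := fun x y => isConj_iff.2 ⟨y, by group⟩
  have hf' : ∀ x y, f' (x * y) = f' (y * x) := by
    intro x y
    have h3 : (∃ g ∈ X, IsConj g (x * y)) ↔ ∃ g ∈ X, IsConj g (y * x) :=
      ⟨fun ⟨g, hg1, hg2⟩ => ⟨g, hg1, hg2.trans (hcomm x y)⟩,
        fun ⟨g, hg1, hg2⟩ => ⟨g, hg1, hg2.trans (hcomm y x)⟩⟩
    simp only [f', h3, hf _ _ (hcomm x y)]
  have h0 : tf f' E = 0 := by
    refine tf_eq_zero hR E hE f' hf' X ?_ ?_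
    · intro h hh
      by_contra hcon
      apply hh
      simp only [f']
      rw [if_neg hcon]
    · intro g hgX j hj
      exact hg g (Finset.mem_filter.1 hgX).2 j hj
  rw [← h0, tf_apply, tf_apply]
  refine Finset.sum_congr rfl fun i _ => ?_
  rw [ell_eq_sum f (msupp E) (E i i) (fun g hg => mem_msupp E i i g hg),
    ell_eq_sum f' (msupp E) (E i i) (fun g hg => mem_msupp E i i g hg)]
  refine Finset.sum_congr rfl fun g hgm => ?_
  congr 1
  simp only [f']
  by_cases hfg : f g = 0
  · rw [hfg, ite_self]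
  · rw [if_pos ⟨g, Finset.mem_filter.2 ⟨hgm, hfg⟩, IsConj.refl g⟩]

theorem core {R : Type u} {T : Type w} [CommRing R] [IsDomain R] [IsNoetherianRing R]
    [CommRing T] [Nontrivial T] (π : R →+* T) (hπ : Function.Surjective π)
    {p : ℕ} (hp : p.Prime) (hpT : (p : T) = 0) {G : Type v} [Group G]
    {d : Type*} [Fintype d] [DecidableEq d] (A : Matrix d d (MonoidAlgebra R G)) (hA : A * A = A)
    {ι κ : Type*} [Fintype ι] [DecidableEq ι] [Fintype κ] [DecidableEq κ]
    {Γ : ι → Type*} [∀ i, Group (Γ i)] (φ : ∀ i, Γ i →* G)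
    (F : ∀ i, Matrix κ κ (MonoidAlgebra T (Γ i))) (hF : ∀ i, F i * F i = F i)
    (x : Matrix d (κ × ι) (MonoidAlgebra T G)) (y : Matrix (κ × ι) d (MonoidAlgebra T G))
    (hxy : x * y = A.map (ch π G))
    (hyx : y * x = Matrix.blockDiagonal fun i =>
      (F i).map (MonoidAlgebra.mapDomainRingHom T (φ i)))
    (s : G) (hs : ∀ i, ∀ h : Γ i, IsConj (φ i h) s → ∀ m, 1 ≤ m → ¬ IsConj h (h ^ p ^ m)) :
    tf (ind R s) A = 0 := by
  classical
  have hFp : Fact p.Prime := ⟨hp⟩
  set J := RingHom.ker π with hJ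
  have hJ1 : J ≠ ⊤ := RingHom.ker_ne_top π
  have hpJ : (p : R) ∈ J := by rw [hJ, RingHom.mem_ker, map_natCast, hpT]
  have hmem : ∀ k : ℕ, tf (ind R s) A ∈ J ^ k := by
    intro k
    rcases Nat.eq_zero_or_pos k with rfl | hk
    · rw [pow_zero, Ideal.one_eq_top]; exact Submodule.mem_top
    rw [← Ideal.Quotient.eq_zero_iff_mem, ← tf_ch']
    let S := R ⧸ J ^ k
    let q : R →+* S := Ideal.Quotient.mk (J ^ k)
    have hle : ∀ a ∈ J ^ k, π a = 0 := by
      intro a ha
      exact (RingHom.mem_ker).1 (Ideal.pow_le_self hk.ne' ha)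
    let θ : S →+* T := Ideal.Quotient.lift (J ^ k) π hle
    have hθq : ∀ a, θ (q a) = π a := fun a => Ideal.Quotient.lift_mk _ _ _
    have hθ : Function.Surjective θ := by
      intro t
      obtain ⟨a, rfl⟩ := hπ t
      exact ⟨q a, hθq a⟩
    have hker : RingHom.ker θ ^ k = ⊥ := by
      have h1 : RingHom.ker θ = J.map q := Ideal.ker_quotient_lift π _
      rw [h1, ← Ideal.map_pow, Ideal.map_quotient_self]
    have hpS : (p : S) ^ k = 0 := by
      rw [← map_natCast q, ← map_pow]
      exact Ideal.Quotient.eq_zero_iff_mem.2 (Ideal.pow_mem_pow hpJ k)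
    -- lift the idempotents over the subgroups
    have hlift : ∀ i, ∃ Q : Matrix κ κ (MonoidAlgebra S (Γ i)), Q * Q = Q ∧
        Q.map (ch θ (Γ i)) = F i := by
      intro i
      have h1 := exists_isIdempotentElem_eq_of_ker_isNilpotent
        ((ch θ (Γ i)).mapMatrix (m := κ)) (fun Z hZ => nil_of_map θ k hker Z (by
          rw [RingHom.mem_ker] at hZ
          exact hZ)) (F i) (by
          obtain ⟨Q0, hQ0⟩ := exists_mlift (ch θ (Γ i)) (ch_surj θ hθ (Γ i)) (F i)
          exact ⟨Q0, hQ0⟩) (hF i)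
      obtain ⟨Q, hQ1, hQ2⟩ := h1
      exact ⟨Q, hQ1, hQ2⟩
    choose Q hQ1 hQ2 using hlift
    let QQ : Matrix (κ × ι) (κ × ι) (MonoidAlgebra S G) := Matrix.blockDiagonal fun i =>
      (Q i).map (MonoidAlgebra.mapDomainRingHom S (φ i))
    have hQQ : QQ * QQ = QQ := by
      change Matrix.blockDiagonal _ * Matrix.blockDiagonal _ = Matrix.blockDiagonal _
      rw [← Matrix.blockDiagonal_mul]
      congr 1
      funext i
      rw [← Matrix.map_mul, hQ1]
    have hQQm : QQ.map (ch θ G) = Matrix.blockDiagonal fun i =>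
        (F i).map (MonoidAlgebra.mapDomainRingHom T (φ i)) := by
      change (Matrix.blockDiagonal _).map _ = _
      rw [Matrix.blockDiagonal_map _ _ (map_zero _)]
      congr 1
      funext i
      rw [← hQ2 i]
      ext1 a b
      simp only [Matrix.map_apply]
      exact ch_mapDomain θ (φ i) _
    have hPm : (A.map (ch q G)).map (ch θ G) = A.map (ch π G) := by
      ext1 a b
      simp only [Matrix.map_apply]
      ext g
      rw [ch_coeff, ch_coeff, ch_coeff, hθq]
    obtain ⟨X, Y, hX, hY⟩ := lift_equiv (ch θ G) (ch_surj θ hθ G)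
      (fun Z hZ => nil_of_map θ k hker Z hZ) (fun Z hZ => nil_of_map θ k hker Z hZ)
      (A.map (ch q G)) (by rw [← Matrix.map_mul, hA]) QQ hQQ x y (by rw [hxy, hPm])
      (by rw [hyx, hQQm])
    have hgoal : tf (ind S s) (A.map (ch q G)) = 0 := by
      rw [← hX, tf_rect _ (ind_comm s), hY, tf_block]
      refine Finset.sum_eq_zero fun i _ => ?_
      rw [tf_sub]
      refine tf_zero' hpS (Q i) (hQ1 i) _ ?_ ?_
      · intro a b hab
        have h1 : IsConj (φ i a) (φ i b) := (φ i).map_isConj hab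
        unfold ind
        by_cases h2 : IsConj (φ i a) s
        · rw [if_pos h2, if_pos (h1.symm.trans h2)]
        · rw [if_neg h2, if_neg fun h3 => h2 (h1.trans h3)]
      · intro g hg j hj
        refine hs i g ?_ j hj
        by_contra h2
        apply hg
        unfold ind
        rw [if_neg]
        exact h2
    exact hgoal
  have h1 := Ideal.iInf_pow_eq_bot_of_isDomain J hJ1
  have h2 : tf (ind R s) A ∈ (⨅ i : ℕ, J ^ i) := by
    rw [Ideal.mem_iInf]
    exact hmem
  rw [h1] at h2
  exact h2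

/-- the main theorem -/
theorem main {R : Type u} [CommRing R] [IsDomain R] [IsNoetherianRing R]
    {T : Type w} [CommRing T] [Nontrivial T] (π : R →+* T) (hπ : Function.Surjective π)
    {p : ℕ} (hp : p.Prime) (hpT : (p : T) = 0) {G : Type v} [Group G] {n m : ℕ}
    (P : Matrix (Fin n) (Fin n) (MonoidAlgebra R G)) (hP : P * P = P)
    {ι κ : Type*} [Fintype ι] [DecidableEq ι] [Fintype κ] [DecidableEq κ]
    {Γ : ι → Type*} [∀ i, Group (Γ i)] (φ : ∀ i, Γ i →* G)
    (F : ∀ i, Matrix κ κ (MonoidAlgebra T (Γ i))) (hF : ∀ i, F i * F i = F i)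
    (X : Matrix (Fin n ⊕ Fin m) (κ × ι) (MonoidAlgebra T G))
    (Y : Matrix (κ × ι) (Fin n ⊕ Fin m) (MonoidAlgebra T G))
    (hXY : X * Y = Matrix.fromBlocks (P.map (MonoidAlgebra.mapRingHom G π)) 0 0 1)
    (hYX : Y * X = Matrix.blockDiagonal fun i =>
      (F i).map (MonoidAlgebra.mapDomainRingHom T (φ i)))
    (s : G) (hs : ¬ IsUnit ((orderOf s : ℕ) : R)) (h0 : tau P s ≠ 0) :
    orderOf s = 0 ∧ ∃ i, ∃ h : Γ i, IsConj (φ i h) s ∧ ∃ j, 1 ≤ j ∧ IsConj h (h ^ p ^ j) := by
  classical
  rw [tau_eq] at h0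
  have hs1 : s ≠ 1 := by
    rintro rfl
    apply hs
    rw [orderOf_one]
    simp
  constructor
  · by_contra hord
    exact h0 (tf_zero_of_finite P hP s hord hs)
  · by_contra hcon
    apply h0
    have h1 : tf (ind R s) (Matrix.fromBlocks P 0 0 (1 : Matrix (Fin m) (Fin m) _)) =
        tf (ind R s) P := by
      rw [tf_apply, tf_apply, Fintype.sum_sum_type]
      simp only [Matrix.fromBlocks_apply₁₁, Matrix.fromBlocks_apply₂₂, Matrix.one_apply_eq]
      have h2 : ell (ind R s) (1 : MonoidAlgebra R G) = 0 := by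
        rw [MonoidAlgebra.one_def, ell_single]
        unfold ind
        rw [if_neg, mul_zero]
        intro h3
        exact hs1 (isConj_one_right.1 h3)
      rw [h2, Finset.sum_const_zero, add_zero]
    rw [← h1]
    refine core π hπ hp hpT _ ?_ φ F hF X Y ?_ hYX s ?_
    · rw [Matrix.fromBlocks_multiply]
      simp [hP]
    · rw [hXY, Matrix.fromBlocks_map]
      simp only [Matrix.map_zero _ (map_zero (ch π G)),
        Matrix.map_one _ (map_zero (ch π G)) (map_one (ch π G))]
      rfl
    · intro i h hh j hj hj2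
      exact hcon ⟨i, h, hh, j, hj, hj2⟩

end TH357OP
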