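import Pool.Agent.TH357.OP.B
import Pool.Agent.TH57.TT2.Bass

set_option autoImplicit false
set_option linter.style.haveILetI false

/-! Idempotent matrices whose reduction has a presentation with at most two nonzero coefficients in
every relation. -/

noncomputable section

namespace TH357OP

open MonoidAlgebra
open Pool.Agent.H23R2.Cyc (ell tf tf_apply)
open Pool.Agent.H26R2.IdemLI (ch ch_coeff)
open Pool.Agent.H26R2.Bass (ind ind_comm tau tau_eq tf_zero_of_finite)
open TH57.TT2 TH6.PF TH57.Thr Matrix

/-- equivalence with a diagonal matrix of idempotents over finite subgroups -/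
theorem two_equiv {K : Type} [Field K] {G : Type} [Group G] {k m n : ℕ}
    (A : Matrix (Fin k) (Fin k) (MonoidAlgebra K G)) (hA : A * A = A)
    (M : Matrix (Fin m) (Fin n) (MonoidAlgebra K G)) (hM : ∀ i, ∑ j, nzr (M i j) ≤ 2)
    (φ : LinearMap.range A.vecMulLinear ≃ₗ[MonoidAlgebra K G] Coker M) :
    ∃ (H : Fin n → Subgroup G) (e : ∀ c, MonoidAlgebra K (H c)), (∀ c, Finite (H c)) ∧
      (∀ c, e c * e c = e c) ∧ ∃ (x : Matrix (Fin k) (Fin n) (MonoidAlgebra K G))
        (y : Matrix (Fin n) (Fin k) (MonoidAlgebra K G)), x * y = A ∧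
        y * x = Matrix.diagonal fun c => MonoidAlgebra.mapDomain (H c).subtype (e c) := by
  classical
  have hP : Module.Projective (MonoidAlgebra K G) (LinearMap.range A.vecMulLinear) := by
    refine Module.Projective.of_split (LinearMap.range A.vecMulLinear).subtype
      A.vecMulLinear.rangeRestrict ?_
    refine LinearMap.ext fun z => ?_
    obtain ⟨_, ⟨x, rfl⟩⟩ := z
    apply Subtype.ext
    change (x ᵥ* A) ᵥ* A = x ᵥ* A
    rw [Matrix.vecMul_vecMul, hA]
  obtain ⟨X, hX⟩ := regular_of_projective M _ hP φ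
  obtain ⟨U', V', h1', h2'⟩ := idem_iso A hA M X hX φ
  by_cases hn : n = 0
  · subst hn
    exact ⟨fun c => c.elim0, fun c => c.elim0, fun c => c.elim0, fun c => c.elim0, U', V', h1',
      Matrix.ext fun i _ => i.elim0⟩
  haveI := proj_coker M X hX
  have hspan : LinearMap.ker (LinearMap.range M.vecMulLinear).mkQ
      = Submodule.span (MonoidAlgebra K G) (Set.range fun i => M i) := by
    rw [Submodule.ker_mkQ]
    apply le_antisymm
    · rintro _ ⟨y, rfl⟩
      have : y ᵥ* M = ∑ i, y i • M i := by
        funext j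
        rw [Finset.sum_apply]
        rfl
      rw [Matrix.vecMulLinear_apply, this]
      exact Submodule.sum_mem _ fun i _ => Submodule.smul_mem _ _
        (Submodule.subset_span ⟨i, rfl⟩)
    · rw [Submodule.span_le]
      rintro _ ⟨i, rfl⟩
      exact ⟨Pi.single i 1, by rw [Matrix.vecMulLinear_apply, Matrix.single_one_vecMul]; rfl⟩
  obtain ⟨H, e, hH, he, ⟨θ⟩⟩ := proj_two (LinearMap.range M.vecMulLinear).mkQ
    (Submodule.mkQ_surjective _) (Set.range fun i => M i) hspan (by
      rintro _ ⟨i, rfl⟩
      exact two_of_support hn _ (hM i))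
  -- the diagonal idempotent matrix
  let e' : Fin n → MonoidAlgebra K G := fun c => MonoidAlgebra.mapDomain (H c).subtype (e c)
  have he' : ∀ c, e' c * e' c = e' c := by
    intro c
    change MonoidAlgebra.mapDomain (H c).subtype (e c) * MonoidAlgebra.mapDomain (H c).subtype (e c)
      = _
    rw [← MonoidAlgebra.mapDomain_mul, he c]
  let D : Matrix (Fin n) (Fin n) (MonoidAlgebra K G) := Matrix.diagonal e'
  have hD : D * D = D := by
    rw [Matrix.diagonal_mul_diagonal]
    congr 1
    funext c
    exact he' c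
  let Ψ : (Fin n → MonoidAlgebra K G) →ₗ[MonoidAlgebra K G] (∀ c : Fin n, Submodule.span
      (MonoidAlgebra K G) {MonoidAlgebra.mapDomain (H c).subtype (e c)}) :=
    LinearMap.pi fun c => (LinearMap.toSpanSingleton (MonoidAlgebra K G) _
      (⟨_, Submodule.mem_span_singleton_self (MonoidAlgebra.mapDomain (H c).subtype (e c))⟩ :
        Submodule.span (MonoidAlgebra K G) {MonoidAlgebra.mapDomain (H c).subtype (e c)})) ∘ₗ
      LinearMap.proj c
  have hΨ : ∀ w c, ((Ψ w c : Submodule.span (MonoidAlgebra K G)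
      {MonoidAlgebra.mapDomain (H c).subtype (e c)}) : MonoidAlgebra K G) = w c * e' c :=
    fun w c => rfl
  have hΨs : Function.Surjective Ψ := by
    intro y
    have : ∀ c, ∃ a : MonoidAlgebra K G,
        a • MonoidAlgebra.mapDomain (H c).subtype (e c) = (y c : MonoidAlgebra K G) :=
      fun c => Submodule.mem_span_singleton.1 (y c).2
    choose a ha using this
    refine ⟨a, ?_⟩
    funext c
    apply Subtype.ext
    rw [hΨ, ← ha c, smul_eq_mul]
  have hker : LinearMap.ker D.vecMulLinear = LinearMap.ker Ψ := by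
    ext w
    rw [LinearMap.mem_ker, LinearMap.mem_ker, Matrix.vecMulLinear_apply]
    constructor
    · intro h
      funext c
      apply Subtype.ext
      rw [hΨ]
      have := congrFun h c
      rwa [Matrix.vecMul_diagonal] at this
    · intro h
      funext c
      rw [Matrix.vecMul_diagonal, ← hΨ, h]
      rfl
  let φD : LinearMap.range D.vecMulLinear ≃ₗ[MonoidAlgebra K G] Coker M :=
    (D.vecMulLinear.quotKerEquivRange).symm.trans ((Submodule.quotEquivOfEq _ _ hker).trans
      ((Ψ.quotKerEquivOfSurjective hΨs).trans θ.symm))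
  obtain ⟨U, V, h1, h2⟩ := idem_iso D hD M X hX φD
  refine ⟨H, e, hH, fun c => he c, U' * V, U * V', ?_, ?_⟩
  · calc U' * V * (U * V') = U' * (V * U) * V' := by simp only [Matrix.mul_assoc]
      _ = (U' * V') * (U' * V') := by rw [h2, ← h2']; simp only [Matrix.mul_assoc]
      _ = A := by rw [h1', hA]
  · calc U * V' * (U' * V) = U * (V' * U') * V := by simp only [Matrix.mul_assoc]
      _ = (U * V) * (U * V) := by rw [h2', ← h2]; simp only [Matrix.mul_assoc]
      _ = D := by rw [h1, hD]

/-- presentations with at most two nonzero coefficients in every row modulo `p` -/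
theorem main_two {R : Type} [CommRing R] [IsDomain R] [IsNoetherianRing R] {K : Type} [Field K]
    (π : R →+* K) (hπ : Function.Surjective π) {p : ℕ} (hp : p.Prime) (hpK : (p : K) = 0)
    {G : Type} [Group G] {k m n : ℕ} (A : Matrix (Fin k) (Fin k) (MonoidAlgebra R G))
    (hA : A * A = A) (M : Matrix (Fin m) (Fin n) (MonoidAlgebra K G))
    (hM : ∀ i, ∑ j, nzr (M i j) ≤ 2)
    (φ : LinearMap.range (A.map (ch π G)).vecMulLinear ≃ₗ[MonoidAlgebra K G] Coker M)
    (s : G) (hs : ¬ IsUnit ((orderOf s : ℕ) : R)) : tau A s = 0 := by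
  classical
  rw [tau_eq]
  by_cases hord : orderOf s = 0
  swap
  · exact tf_zero_of_finite A hA s hord hs
  obtain ⟨H, e, hH, he, x, y, hxy, hyx⟩ := two_equiv (A.map (ch π G))
    (by rw [← Matrix.map_mul, hA]) M hM φ
  refine core π hπ hp hpK A hA (ι := Fin n) (κ := Unit) (fun c => (H c).subtype)
    (fun c => Matrix.of fun _ _ => e c) ?_ (x.submatrix id Prod.snd) (y.submatrix Prod.snd id)
    ?_ ?_ s ?_
  · intro c
    ext1 a b
    rw [Matrix.mul_apply, Fintype.sum_unique]
    exact he c
  · rw [← hxy]
    ext1 a b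
    rw [Matrix.mul_apply, Matrix.mul_apply, Fintype.sum_prod_type, Fintype.sum_unique]
    rfl
  · ext1 a b
    obtain ⟨a1, c⟩ := a
    obtain ⟨b1, d⟩ := b
    have h1 : (y.submatrix Prod.snd id * x.submatrix id Prod.snd :
        Matrix (Unit × Fin n) (Unit × Fin n) (MonoidAlgebra K G)) (a1, c) (b1, d) =
          (y * x) c d := rfl
    rw [h1, hyx, Matrix.blockDiagonal_apply]
    by_cases hcd : c = d
    · subst hcd
      rw [Matrix.diagonal_apply_eq, if_pos rfl]
      rfl
    · rw [Matrix.diagonal_apply_ne _ hcd, if_neg hcd]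
  · intro c h hh j _ _
    haveI := hH c
    have h3 : IsOfFinOrder s := by
      obtain ⟨z, hz⟩ := isConj_iff.1 hh
      rw [← hz]
      exact MonoidHom.isOfFinOrder (MulAut.conj z).toMonoidHom
        (MonoidHom.isOfFinOrder (H c).subtype (isOfFinOrder_of_finite h))
    rw [orderOf_eq_zero_iff] at hord
    exact hord h3

end TH357OP
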