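import Pool.Agent.TH357.OP.B
import Pool.Agent.TH6.PF.BassT

set_option autoImplicit false
set_option linter.style.haveILetI false
set_option linter.unusedSectionVars false

/-! Idempotent matrices whose reduction has a presentation of a cyclic pattern. -/

noncomputable section

namespace TH357OP

open MonoidAlgebra
open Pool.Agent.H23R2.Cyc (ell tf tf_apply ell_single)
open Pool.Agent.H26R2.IdemLI (ch ch_coeff)
open Pool.Agent.H26R2.Bass (ind_comm tau tau_eq tf_zero_of_finite)
open TH6.PF TH57.Thr Matrix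

universe u v w

/-- the equivalence class of the reduction has liftings with vanishing rank -/
theorem core_abs {R : Type u} {T : Type w} [CommRing R] [IsDomain R] [IsNoetherianRing R]
    [CommRing T] [Nontrivial T] (π : R →+* T) (hπ : Function.Surjective π)
    {p : ℕ} (hpT : (p : T) = 0) {G : Type v} [Group G]
    {d : Type*} [Fintype d] [DecidableEq d] (A : Matrix d d (MonoidAlgebra R G)) (hA : A * A = A)
    {l : Type*} [Fintype l] [DecidableEq l] (E : Matrix l l (MonoidAlgebra T G))
    (x : Matrix d l (MonoidAlgebra T G)) (y : Matrix l d (MonoidAlgebra T G))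
    (hxy : x * y = A.map (ch π G)) (hyx : y * x = E) (s : G)
    (hE : ∀ (S : Type u) [CommRing S] (θ : S →+* T) (k : ℕ), Function.Surjective θ →
      RingHom.ker θ ^ k = ⊥ → (p : S) ^ k = 0 → ∃ E' : Matrix l l (MonoidAlgebra S G),
        E' * E' = E' ∧ E'.map (ch θ G) = E ∧ tf (Pool.Agent.H26R2.Bass.ind S s) E' = 0) :
    tf (Pool.Agent.H26R2.Bass.ind R s) A = 0 := by
  classical
  set J := RingHom.ker π with hJ
  have hJ1 : J ≠ ⊤ := RingHom.ker_ne_top π
  have hpJ : (p : R) ∈ J := by rw [hJ, RingHom.mem_ker, map_natCast, hpT]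
  have hmem : ∀ k : ℕ, tf (Pool.Agent.H26R2.Bass.ind R s) A ∈ J ^ k := by
    intro k
    rcases Nat.eq_zero_or_pos k with rfl | hk
    · rw [pow_zero, Ideal.one_eq_top]; exact Submodule.mem_top
    rw [← Ideal.Quotient.eq_zero_iff_mem, ← tf_ch']
    let S := R ⧸ J ^ k
    let q : R →+* S := Ideal.Quotient.mk (J ^ k)
    have hle : ∀ a ∈ J ^ k, π a = 0 := by
      intro a ha
      exact (RingHom.mem_ker).1 (Ideal.pow_le_self hk.ne' ha)
    let θ : S →+* T := Ideal.Quotient.lift (J ^ k) π hle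
    have hθq : ∀ a, θ (q a) = π a := fun a => Ideal.Quotient.lift_mk _ _ _
    have hθ : Function.Surjective θ := by
      intro t
      obtain ⟨a, rfl⟩ := hπ t
      exact ⟨q a, hθq a⟩
    have hker : RingHom.ker θ ^ k = ⊥ := by
      have h1 : RingHom.ker θ = J.map q := Ideal.ker_quotient_lift π _
      rw [h1, ← Ideal.map_pow, Ideal.map_quotient_self]
    have hpS : (p : S) ^ k = 0 := by
      rw [← map_natCast q, ← map_pow]
      exact Ideal.Quotient.eq_zero_iff_mem.2 (Ideal.pow_mem_pow hpJ k)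
    obtain ⟨QQ, hQQ, hQQm, hQ0⟩ := hE S θ k hθ hker hpS
    have hPm : (A.map (ch q G)).map (ch θ G) = A.map (ch π G) := by
      ext1 a b
      simp only [Matrix.map_apply]
      ext g
      rw [ch_coeff, ch_coeff, ch_coeff, hθq]
    obtain ⟨X, Y, hX, hY⟩ := lift_equiv (ch θ G) (ch_surj θ hθ G)
      (fun Z hZ => nil_of_map θ k hker Z hZ) (fun Z hZ => nil_of_map θ k hker Z hZ)
      (A.map (ch q G)) (by rw [← Matrix.map_mul, hA]) QQ hQQ x y (by rw [hxy, hPm])
      (by rw [hyx, hQQm])
    have hgoal : tf (Pool.Agent.H26R2.Bass.ind S s) (A.map (ch q G)) = 0 := by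
      rw [← hX, tf_rect _ (ind_comm s), hY, hQ0]
    exact hgoal
  have h1 := Ideal.iInf_pow_eq_bot_of_isDomain J hJ1
  have h2 : tf (Pool.Agent.H26R2.Bass.ind R s) A ∈ (⨅ i : ℕ, J ^ i) := by
    rw [Ideal.mem_iInf]
    exact hmem
  rw [h1] at h2
  exact h2

/-- lifting idempotent matrices -/
lemma exists_idem_lift {S T : Type*} [CommRing S] [CommRing T] (θ : S →+* T)
    (hθ : Function.Surjective θ) (k : ℕ) (hker : RingHom.ker θ ^ k = ⊥) {G : Type*} [Group G]
    {κ : Type*} [Fintype κ] [DecidableEq κ] (F : Matrix κ κ (MonoidAlgebra T G))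
    (hF : F * F = F) : ∃ Q : Matrix κ κ (MonoidAlgebra S G), Q * Q = Q ∧ Q.map (ch θ G) = F := by
  have h1 := exists_isIdempotentElem_eq_of_ker_isNilpotent
    ((ch θ G).mapMatrix (m := κ)) (fun Z hZ => nil_of_map θ k hker Z (by
      rw [RingHom.mem_ker] at hZ
      exact hZ)) F (by
      obtain ⟨Q0, hQ0⟩ := exists_mlift (ch θ G) (ch_surj θ hθ G) F
      exact ⟨Q0, hQ0⟩) hF
  obtain ⟨Q, hQ1, hQ2⟩ := h1
  exact ⟨Q, hQ1, hQ2⟩

section pattern

variable {T : Type} [CommRing T] {G : Type} [Group G]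
  {ι κ β : Type} [Fintype ι] [Fintype κ] [Fintype β] [DecidableEq ι] [DecidableEq κ]
  [DecidableEq β]

lemma scl_one (A : Matrix ι κ (MonoidAlgebra T G)) : scl A (fun _ => 1) (fun _ => 1) = A := by
  ext1 i j
  rw [scl, inv_one, ← MonoidAlgebra.one_def, one_mul, mul_one]

lemma blockSum_map {S : Type} [CommRing S] (θ : S →+* T) (s : κ → β) (C : β → Subgroup G)
    (F : ∀ a, Matrix {i // s i = a} {j // s j = a} (MonoidAlgebra S (C a))) :
    (blockSum s s C F).map (ch θ G) = blockSum s s C fun a => (F a).map (ch θ (C a)) := by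
  ext1 i j
  rw [Matrix.map_apply]
  unfold blockSum
  split_ifs with h
  · exact ch_mapDomain θ (C (s i)).subtype _
  · exact map_zero _

theorem pattern_lift (M : Matrix ι κ (MonoidAlgebra T G)) (r : ι → β) (s : κ → β)
    (C : β → Subgroup G) (u : ι → G) (w : κ → G)
    (h : ∀ i j g, (M i j).coeff g ≠ 0 → r i = s j ∧ u i * g * (w j)⁻¹ ∈ C (r i))
    (hC : ∀ b, ∀ a c : C b, a * c = c * a)
    (X : Matrix κ ι (MonoidAlgebra T G)) (hX : M * X * M = M) (g : G) (hg : orderOf g = 0)
    {p : ℕ} (hp : p.Prime)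
    {S : Type} [CommRing S] (θ : S →+* T) (hθ : Function.Surjective θ) (k : ℕ)
    (hker : RingHom.ker θ ^ k = ⊥) (hpS : (p : S) ^ k = 0) :
    ∃ E' : Matrix κ κ (MonoidAlgebra S G), E' * E' = E' ∧ E'.map (ch θ G) = X * M ∧
      tf (Pool.Agent.H26R2.Bass.ind S g) E' = 0 := by
  classical
  have hFp : Fact p.Prime := ⟨hp⟩
  choose Z hZ using fun b => regular_blocks M r s C u w h X hX b
  set N := scl M u w with hN
  have hNb : blockSum r s C (fun b => blkm M r s C u w b) = N :=
    blockSum_blk r s C N (scl_supp M r s C u w h)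
  set X₁ := scl X w u with hX₁
  set X' := blockSum s r C Z with hX'
  have e1 : N * X₁ * N = N := by rw [hN, hX₁, scl_mul, scl_mul, hX]
  have e2 : N * X' * N = N := by
    rw [← hNb, hX', blockSum_mul, blockSum_mul]
    congr 1
    funext b
    exact hZ b
  have hXM : X * M * (X * M) = X * M := by
    rw [Matrix.mul_assoc, ← Matrix.mul_assoc M, hX]
  set a := scl (X * M) (fun _ => (1 : G)) w with ha
  set b := scl (X * M) w (fun _ => (1 : G)) with hb
  have hab : a * b = X * M := by rw [ha, hb, scl_mul, hXM, scl_one]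
  have hba : b * a = X₁ * N := by rw [ha, hb, scl_mul, hXM, hX₁, hN, scl_mul]
  have f1 : X₁ * N * (X₁ * N) = X₁ * N := by
    rw [Matrix.mul_assoc, ← Matrix.mul_assoc N, e1]
  have f2 : X₁ * N * (X' * N) = X₁ * N := by
    rw [Matrix.mul_assoc, ← Matrix.mul_assoc N, e2]
  have f3 : X' * N * (X₁ * N) = X' * N := by
    rw [Matrix.mul_assoc, ← Matrix.mul_assoc N, e1]
  -- the block matrix and its lifting
  have hBB : X' * N = blockSum s s C fun b => Z b * blkm M r s C u w b := by
    rw [← hNb, hX', blockSum_mul]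
  have hidem : ∀ b, (Z b * blkm M r s C u w b) * (Z b * blkm M r s C u w b)
      = Z b * blkm M r s C u w b := by
    intro b
    rw [Matrix.mul_assoc, ← Matrix.mul_assoc (blkm M r s C u w b), hZ b]
  choose Q hQ1 hQ2 using fun b => exists_idem_lift θ hθ k hker _ (hidem b)
  set B := blockSum s s C Q with hB
  have hBidem : B * B = B := by
    rw [hB, blockSum_mul]
    congr 1
    funext b
    exact hQ1 b
  have hBm : B.map (ch θ G) = X' * N := by
    rw [hB, blockSum_map, hBB]
    congr 1
    funext b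
    exact hQ2 b
  have hB0 : tf (Pool.Agent.H26R2.Bass.ind S g) B = 0 := by
    apply tf_blockSum
    intro c
    refine tf_zero' hpS (Q c) (hQ1 c) _ ?_ ?_
    · intro x y hxy
      have hxy' : IsConj (x : G) (y : G) := MonoidHom.map_isConj (C c).subtype hxy
      unfold Pool.Agent.H26R2.Bass.ind
      by_cases h1 : IsConj (x : G) g
      · rw [if_pos h1, if_pos (hxy'.symm.trans h1)]
      · rw [if_neg h1, if_neg (fun h' => h1 (hxy'.trans h'))]
    · intro x hx j hj hcon
      have hc : IsConj (x : G) g := by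
        by_contra hcon'
        apply hx
        unfold Pool.Agent.H26R2.Bass.ind
        rw [if_neg hcon']
      obtain ⟨z, hz⟩ := isConj_iff.1 hcon
      have h3 : x = x ^ p ^ j := by
        rw [hC c z x, mul_inv_cancel_right] at hz
        exact hz
      have ho : orderOf x = 0 := by
        obtain ⟨c', hc'⟩ := isConj_iff.1 hc
        rw [← Subgroup.orderOf_coe, ← hg, ← hc']
        exact (orderOf_injective (MulAut.conj c').toMonoidHom (MulAut.conj c').injective
          (x : G)).symm
      have h4 : x ^ 1 = x ^ p ^ j := by rw [pow_one]; exact h3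
      have h5 := pow_inj_iff_of_orderOf_eq_zero ho |>.1 h4
      have h6 : 1 < p ^ j := Nat.one_lt_pow (by omega) hp.one_lt
      omega
  obtain ⟨E₁, hE1, hE2⟩ := exists_idem_lift θ hθ k hker (X * M) hXM
  have g1 : (a * (X₁ * N)) * ((X' * N) * b) = X * M := by
    calc (a * (X₁ * N)) * ((X' * N) * b) = a * (X₁ * N * (X' * N)) * b := by
          simp only [Matrix.mul_assoc]
      _ = (a * b) * (a * b) := by rw [f2, ← hba]; simp only [Matrix.mul_assoc]
      _ = X * M := by rw [hab, hXM]
  have g2 : ((X' * N) * b) * (a * (X₁ * N)) = X' * N := by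
    calc ((X' * N) * b) * (a * (X₁ * N)) = X' * N * ((b * a) * (X₁ * N)) := by
          simp only [Matrix.mul_assoc]
      _ = X' * N := by rw [hba, f1, f3]
  obtain ⟨X2, Y2, k1, k2⟩ := lift_equiv (ch θ G) (ch_surj θ hθ G)
    (fun Z hZ => nil_of_map θ k hker Z hZ) (fun Z hZ => nil_of_map θ k hker Z hZ)
    E₁ hE1 B hBidem (a * (X₁ * N)) ((X' * N) * b) (by rw [g1, hE2]) (by rw [g2, hBm])
  refine ⟨E₁, hE1, hE2, ?_⟩
  rw [← k1, tf_rect _ (ind_comm g), k2, hB0]

end pattern

end TH357OP
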