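import Pool.Agent.TH357.OP.C
import Pool.Agent.TH357.OP.D

set_option autoImplicit false
set_option linter.style.haveILetI false

/-! Idempotent matrices whose reduction has a sparse presentation. -/

noncomputable section

namespace TH357OP

open MonoidAlgebra
open Pool.Agent.H23R2.Cyc (ell tf tf_apply)
open Pool.Agent.H26R2.IdemLI (ch ch_coeff)
open Pool.Agent.H26R2.Bass (ind_comm tau tau_eq tf_zero_of_finite)
open TH57.TT2 TH6.PF TH57.Thr Matrix

/-- sparse presentations modulo `p` -/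
theorem main_sparse {R : Type} [CommRing R] [IsDomain R] [IsNoetherianRing R] {K : Type} [Field K]
    (π : R →+* K) (hπ : Function.Surjective π) {p : ℕ} (hp : p.Prime) (hpK : (p : K) = 0)
    {G : Type} [Group G] {k m n : ℕ} (A : Matrix (Fin k) (Fin k) (MonoidAlgebra R G))
    (hA : A * A = A) (M : Matrix (Fin m) (Fin n) (MonoidAlgebra K G))
    (hM : (∀ i, ∑ j, nzr (M i j) ≤ 2) ∨ SparseR M)
    (φ : LinearMap.range (A.map (ch π G)).vecMulLinear ≃ₗ[MonoidAlgebra K G] Coker M)
    (s : G) (hs : ¬ IsUnit ((orderOf s : ℕ) : R)) : tau A s = 0 := by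
  classical
  rcases hM with hM | hM
  · exact main_two π hπ hp hpK A hA M hM φ s hs
  rw [tau_eq]
  by_cases hord : orderOf s = 0
  swap
  · exact tf_zero_of_finite A hA s hord hs
  have hA' : A.map (ch π G) * A.map (ch π G) = A.map (ch π G) := by rw [← Matrix.map_mul, hA]
  have hP : Module.Projective (MonoidAlgebra K G)
      (LinearMap.range (A.map (ch π G)).vecMulLinear) := by
    refine Module.Projective.of_split (LinearMap.range (A.map (ch π G)).vecMulLinear).subtype
      (A.map (ch π G)).vecMulLinear.rangeRestrict ?_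
    refine LinearMap.ext fun z => ?_
    obtain ⟨_, ⟨x, rfl⟩⟩ := z
    apply Subtype.ext
    change (x ᵥ* (A.map (ch π G))) ᵥ* (A.map (ch π G)) = x ᵥ* (A.map (ch π G))
    rw [Matrix.vecMul_vecMul, hA']
  obtain ⟨X, hX⟩ := regular_of_projective M _ hP φ
  obtain ⟨U, V, h1, h2⟩ := idem_iso (A.map (ch π G)) hA' M X hX φ
  obtain ⟨ρ, u, C, hst, hC⟩ := rect_lab M hM
  refine core_abs π hπ hpK A hA (1 - X * M) U V h1 h2 s ?_
  intro S _ θ k hθ hker hpS
  obtain ⟨E', hE1, hE2, hE3⟩ := pattern_lift M (fun i => ρ (Sum.inl i)) (fun j => ρ (Sum.inr j)) C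
    (fun i => u (Sum.inl i)) (fun j => u (Sum.inr j)) hst (fun b a c => by
      haveI := hC b
      obtain ⟨t, ht⟩ := IsCyclic.exists_generator (α := C b)
      obtain ⟨i, rfl⟩ := Subgroup.mem_zpowers_iff.1 (ht a)
      obtain ⟨j, rfl⟩ := Subgroup.mem_zpowers_iff.1 (ht c)
      rw [← _root_.zpow_add, ← _root_.zpow_add, add_comm]) X hX s hord hp θ hθ k hker hpS
  refine ⟨1 - E', ?_, ?_, ?_⟩
  · rw [sub_mul, mul_sub, mul_sub, one_mul, mul_one, one_mul, hE1, sub_self, sub_zero]
  · rw [Matrix.map_sub (hf := map_sub (ch θ G)), hE2,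
      Matrix.map_one _ (map_zero (ch θ G)) (map_one (ch θ G))]
  · rw [map_sub, hE3, tf_one_inf s hord, sub_zero]

end TH357OP
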